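import Pool.Agent.H503R3.FR.Stmts

/-! Task ZsPrime: the vertex primes. -/

set_option autoImplicit false

open MvPolynomial (X C)
open H503R3.FR

namespace H3R3.FR.ZsPrime

variable {k : Type} [Field k]

theorem val_r (i : Fin 6) : ((r k i : R k) : D k) = gen k i := rfl

/-- evaluation of a polynomial at `r 0` has value `E (f (X 0))`. -/
theorem coe_aeval (f : Polynomial k) :
    ((Polynomial.aeval (r k 0) f : R k) : D k) = E k (polyX0 f) := by
  have h1 : ((Polynomial.aeval (r k 0) f : R k) : D k)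
      = Polynomial.aeval ((r k 0 : R k) : D k) f := by
    have := Polynomial.aeval_algHom_apply (R k).val (r k 0) f
    simpa using this.symm
  have h2 : E k (polyX0 f) = Polynomial.aeval (E k (X 0 : D k)) f := by
    unfold polyX0
    exact (Polynomial.aeval_algHom_apply (E k) (X 0 : D k) f).symm
  rw [h1, h2]
  congr 1
  rw [val_r]
  simp [gen, E]

theorem r2_sq : (r k 2) ^ 2 = r k 1 * r k 3 := by
  apply Subtype.ext
  simp only [MulMemClass.coe_mul, SubmonoidClass.coe_pow, val_r]
  simp [gen]
  ring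

theorem r4_sq [CharP k 2] : (r k 4) ^ 2 = r k 1 * (r k 1 * r k 2 + r k 0 * r k 2 * r k 3) := by
  apply Subtype.ext
  have h2 : (2 : D k) = 0 := CharTwo.two_eq_zero
  simp only [MulMemClass.coe_mul, SubmonoidClass.coe_pow, AddMemClass.coe_add, val_r]
  simp only [gen, Matrix.cons_val, w]
  linear_combination (X 1 ^ 4 * X 1 ^ 3 * X 2 * X 0 * X 1 * X 2 ^ 3) * h2

theorem r5_sq [CharP k 2] : (r k 5) ^ 2 = r k 3 * (r k 1 * r k 2 + r k 0 * r k 2 * r k 3) := by
  apply Subtype.ext
  have h2 : (2 : D k) = 0 := CharTwo.two_eq_zero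
  simp only [MulMemClass.coe_mul, SubmonoidClass.coe_pow, AddMemClass.coe_add, val_r]
  simp only [gen, Matrix.cons_val, w]
  linear_combination (X 2 ^ 4 * X 1 ^ 3 * X 2 * X 0 * X 1 * X 2 ^ 3) * h2

theorem r_mem_rad [CharP k 2] (i : Fin 6) (hi : i ≠ 0) :
    r k i ∈ (Ideal.span {r k 1, r k 3}).radical := by
  have h1 : r k 1 ∈ Ideal.span {r k 1, r k 3} := Ideal.subset_span (by simp)
  have h3 : r k 3 ∈ Ideal.span {r k 1, r k 3} := Ideal.subset_span (by simp)
  have hi' : i = 1 ∨ i = 2 ∨ i = 3 ∨ i = 4 ∨ i = 5 := by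
    fin_cases i <;> simp at hi ⊢
  rcases hi' with rfl | rfl | rfl | rfl | rfl
  · exact Ideal.le_radical h1
  · exact ⟨2, by rw [r2_sq]; exact Ideal.mul_mem_right _ _ h1⟩
  · exact Ideal.le_radical h3
  · exact ⟨2, by rw [r4_sq]; exact Ideal.mul_mem_right _ _ h1⟩
  · exact ⟨2, by rw [r5_sq]; exact Ideal.mul_mem_right _ _ h3⟩

theorem exists_poly [CharP k 2] (z : R k) : ∃ f : Polynomial k,
    z - Polynomial.aeval (r k 0) f ∈ (Ideal.span {r k 1, r k 3}).radical := by
  obtain ⟨z, hz⟩ := z
  induction hz using Algebra.adjoin_induction with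
  | mem x hx =>
    obtain ⟨i, rfl⟩ := hx
    by_cases hi : i = 0
    · subst hi
      refine ⟨Polynomial.X, ?_⟩
      rw [Polynomial.aeval_X]
      have : (⟨gen k 0, Algebra.subset_adjoin ⟨0, rfl⟩⟩ : R k) - r k 0 = 0 := sub_self (r k 0)
      exact this ▸ Ideal.zero_mem _
    · refine ⟨0, ?_⟩
      rw [map_zero, sub_zero]
      exact r_mem_rad i hi
  | algebraMap c =>
    refine ⟨Polynomial.C c, ?_⟩
    rw [Polynomial.aeval_C]
    have : (⟨algebraMap k (D k) c, (R k).algebraMap_mem c⟩ : R k) - algebraMap k (R k) c = 0 :=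
      sub_self _
    exact this ▸ Ideal.zero_mem _
  | add x y hx hy ihx ihy =>
    obtain ⟨f, hf⟩ := ihx
    obtain ⟨g, hg⟩ := ihy
    refine ⟨f + g, ?_⟩
    rw [map_add]
    have := Ideal.add_mem _ hf hg
    convert this using 1
    have h : (⟨x + y, add_mem hx hy⟩ : R k) = ⟨x, hx⟩ + ⟨y, hy⟩ := rfl
    rw [h]
    ring
  | mul x y hx hy ihx ihy =>
    obtain ⟨f, hf⟩ := ihx
    obtain ⟨g, hg⟩ := ihy
    refine ⟨f * g, ?_⟩
    rw [map_mul]
    have := Ideal.add_mem _ (Ideal.mul_mem_left _ (⟨x, hx⟩ : R k) hg)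
      (Ideal.mul_mem_left _ (Polynomial.aeval (r k 0) g) hf)
    convert this using 1
    have h : (⟨x * y, mul_mem hx hy⟩ : R k) = ⟨x, hx⟩ * ⟨y, hy⟩ := rfl
    rw [h]
    ring

theorem taskZsPrime : TaskZsPrime := by
  intro _ k _ _ P hP h1 h3
  have hspan : Ideal.span {r k 1, r k 3} ≤ P := by
    rw [Ideal.span_le]
    intro x hx
    rcases hx with rfl | hx
    · exact h1
    · rw [Set.mem_singleton_iff] at hx
      rw [hx]
      exact h3
  have hJ : (Ideal.span {r k 1, r k 3}).radical ≤ P := by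
    have := Ideal.radical_mono hspan
    rwa [hP.radical] at this
  let φ : Polynomial k →ₐ[k] R k := Polynomial.aeval (r k 0)
  let Q : Ideal (Polynomial k) := P.comap φ
  by_cases hQ : Q = ⊥
  · left
    intro z hz
    obtain ⟨f, hf⟩ := exists_poly z
    have hfP : Polynomial.aeval (r k 0) f ∈ P := by
      have := P.sub_mem hz (hJ hf)
      simpa using this
    have hfQ : f ∈ Q := hfP
    rw [hQ, Ideal.mem_bot] at hfQ
    rw [hfQ, map_zero, sub_zero] at hf
    exact hf
  · right
    have hg : Ideal.span {Submodule.IsPrincipal.generator Q} = Q := Ideal.span_singleton_generator Q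
    set g := Submodule.IsPrincipal.generator Q with hgdef
    have hg0 : g ≠ 0 := by
      intro h
      apply hQ
      rw [← hg, h]
      simp
    have hmem : E k (polyX0 g) ∈ R k := by
      rw [← coe_aeval]
      exact (Polynomial.aeval (r k 0) g : R k).2
    have heq : (⟨E k (polyX0 g), hmem⟩ : R k) = Polynomial.aeval (r k 0) g :=
      Subtype.ext (coe_aeval g).symm
    refine ⟨g, hg0, hmem, ?_, ?_⟩
    · rw [heq]
      have : g ∈ Q := Submodule.IsPrincipal.generator_mem Q
      exact this
    · rw [heq]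
      intro z hz
      obtain ⟨f, hf⟩ := exists_poly z
      have hfP : Polynomial.aeval (r k 0) f ∈ P := by
        have := P.sub_mem hz (hJ hf)
        simpa using this
      have hfQ : f ∈ Q := hfP
      rw [← hg, Ideal.mem_span_singleton] at hfQ
      obtain ⟨q, rfl⟩ := hfQ
      have hle : (Ideal.span {r k 1, r k 3}).radical ≤
          (Ideal.span {r k 1, r k 3, Polynomial.aeval (r k 0) g}).radical := by
        apply Ideal.radical_mono
        apply Ideal.span_mono
        intro x hx
        rcases hx with rfl | hx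
        · simp
        · rw [Set.mem_singleton_iff] at hx
          simp [hx]
      have h4 : Polynomial.aeval (r k 0) (g * q) ∈
          (Ideal.span {r k 1, r k 3, Polynomial.aeval (r k 0) g}).radical := by
        apply Ideal.le_radical
        rw [map_mul]
        apply Ideal.mul_mem_right
        exact Ideal.subset_span (by simp)
      have := Ideal.add_mem _ (hle hf) h4
      simpa using this

end H3R3.FR.ZsPrime
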